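import Mathlib

namespace Pool.Agent.Results.MP_ea8870_an.StarFails

open MeasureTheory Set
open scoped ENNReal

/-- the norm of the weighted space `L¹([a,b], w dx)` -/
noncomputable def wnorm (w : ℝ → ℝ≥0∞) (a b : ℝ) (g : ℝ → ℝ) : ℝ≥0∞ :=
  ∫⁻ x in Icc a b, ‖g x‖ₑ * w x

/-- the classical BMO seminorm -/
noncomputable def bmo (f : ℝ → ℝ) : ℝ≥0∞ :=
  ⨆ (a : ℝ) (b : ℝ) (_ : a < b), ⨍⁻ x in Icc a b, ‖f x - ⨍ y in Icc a b, f y‖ₑ ∂volume

/-- the seminorm of `BMO_X` -/
noncomputable def bmoX (w : ℝ → ℝ → ℝ → ℝ≥0∞) (f : ℝ → ℝ) : ℝ≥0∞ :=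
  ⨆ (a : ℝ) (b : ℝ) (_ : a < b), wnorm (w a b) a b fun x => f x - ⨍ y in Icc a b, f y

/-- the seminorm of `BMO*_X` -/
noncomputable def bmoStar (w : ℝ → ℝ → ℝ → ℝ≥0∞) (f : ℝ → ℝ) : ℝ≥0∞ :=
  ⨆ (a : ℝ) (b : ℝ) (_ : a < b), ⨅ c : ℝ, wnorm (w a b) a b fun x => f x - c

noncomputable def f (x : ℝ) : ℝ := if Int.fract x < 1 / 2 then ⌊x⌋ else 0

lemma f_meas : Measurable f :=
  Measurable.ite (measurableSet_lt measurable_fract measurable_const)
    ((measurable_of_countable ((↑) : ℤ → ℝ)).comp Int.measurable_floor) measurable_const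

lemma f_loc : LocallyIntegrable f := by
  refine (continuous_abs.add (continuous_const (y := (1 : ℝ)))).locallyIntegrable.mono
    f_meas.aestronglyMeasurable (Filter.Eventually.of_forall fun x => ?_)
  have h1 := Int.floor_le x
  have h2 := Int.lt_floor_add_one x
  show |f x| ≤ |(|x| + 1)|
  rw [abs_of_nonneg (a := |x| + 1) (by positivity), f]
  split_ifs
  · rw [abs_le]
    constructor <;> linarith [le_abs_self x, neg_abs_le x]
  · rw [abs_zero]; positivity

lemma portion (a b : ℝ) :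
    ∃ c : ℝ, volume (Icc a b) ≤ 4 * volume (Icc a b ∩ {x | f x = c}) := by
  rcases le_total (b - a) 1 with h | h
  · obtain ⟨c, -, hc⟩ := ({0, (⌊a⌋ : ℝ), (⌊a⌋ : ℝ) + 1} : Finset ℝ).exists_max_image
      (fun c => volume (Icc a b ∩ {x | f x = c})) (by simp)
    refine ⟨c, ?_⟩
    have hsub : Icc a b ⊆ (Icc a b ∩ {x | f x = 0}) ∪ (Icc a b ∩ {x | f x = ⌊a⌋}) ∪
        (Icc a b ∩ {x | f x = ⌊a⌋ + 1}) := by
      intro x hx
      simp only [mem_union, mem_inter_iff, hx, true_and, mem_ofPred_eq, f]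
      split_ifs
      · have h1 : ⌊a⌋ ≤ ⌊x⌋ := Int.floor_mono hx.1
        have h2 : ⌊x⌋ ≤ ⌊a⌋ + 1 := by
          rw [← Int.floor_add_one]
          exact Int.floor_mono (by linarith [hx.2])
        rcases h1.eq_or_lt with e | e
        · exact Or.inl (Or.inr (by rw [e]))
        · exact Or.inr (by exact_mod_cast (by omega : ⌊x⌋ = ⌊a⌋ + 1))
      · simp
    refine (measure_mono hsub).trans ((measure_union_le _ _).trans ?_)
    refine (add_le_add_left (measure_union_le _ _) _).trans ?_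
    calc _ ≤ volume (Icc a b ∩ {x | f x = c}) + volume (Icc a b ∩ {x | f x = c}) +
          volume (Icc a b ∩ {x | f x = c}) := by
          exact add_le_add (add_le_add (hc _ (by simp)) (hc _ (by simp))) (hc _ (by simp))
      _ = 3 * volume (Icc a b ∩ {x | f x = c}) := by ring
      _ ≤ _ := by gcongr; norm_num
  · refine ⟨0, ?_⟩
    have hsub : Icc a (b - 1 / 2) ⊆ (Icc a b ∩ {x | f x = 0}) ∪
        (fun x => x + 1 / 2) ⁻¹' (Icc a b ∩ {x | f x = 0}) := by
      intro x hx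
      by_cases h1 : Int.fract x < 1 / 2
      · refine Or.inr ⟨⟨by linarith [hx.1], by linarith [hx.2]⟩, if_neg ?_⟩
        have : Int.fract (x + 1 / 2) = Int.fract x + 1 / 2 := by
          rw [Int.fract_eq_iff]
          refine ⟨by linarith [Int.fract_nonneg x], by linarith, ⌊x⌋, ?_⟩
          rw [← Int.self_sub_fract]; ring
        rw [this]
        linarith [Int.fract_nonneg x]
      · exact Or.inl ⟨⟨hx.1, by linarith [hx.2]⟩, if_neg h1⟩
    have h1 := (measure_mono (μ := volume) hsub).trans (measure_union_le _ _)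
    rw [measure_preimage_add_right] at h1
    calc volume (Icc a b) ≤ 2 * volume (Icc a (b - 1 / 2)) := by
          rw [Real.volume_Icc, Real.volume_Icc, ← ENNReal.ofReal_ofNat, ← ENNReal.ofReal_mul (by simp)]
          exact ENNReal.ofReal_le_ofReal (by linarith)
      _ ≤ 2 * (volume (Icc a b ∩ {x | f x = 0}) + volume (Icc a b ∩ {x | f x = 0})) := by gcongr
      _ = _ := by ring

lemma lower (j : ℕ) (m : ℝ) : (j : ℝ≥0∞) / 2 ≤ ⨍⁻ x in Icc (j : ℝ) (j + 1), ‖f x - m‖ₑ ∂volume := by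
  have hv : volume (Icc (j : ℝ) (j + 1)) = 1 := by simp
  rw [setLAverage_eq, hv, div_one]
  have hfl : ∀ x : ℝ, j ≤ x → x < j + 1 → ⌊x⌋ = j := fun x h1 h2 =>
    Int.floor_eq_iff.2 ⟨by simpa using h1, by simpa using h2⟩
  have h1 : ∫⁻ x in Ico (j : ℝ) (j + 1 / 2), ‖f x - m‖ₑ = ‖(j : ℝ) - m‖ₑ / 2 := by
    rw [setLIntegral_congr_fun measurableSet_Ico (g := fun _ => ‖(j : ℝ) - m‖ₑ), setLIntegral_const]
    · simp [div_eq_mul_inv, ENNReal.ofReal_inv_of_pos]
    · intro x hx
      have e := hfl x hx.1 (by linarith [hx.2])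
      have : Int.fract x < 1 / 2 := by
        rw [Int.fract, e]; push_cast; linarith [hx.2]
      simp only [f, if_pos this, e, Int.cast_natCast]
  have h2 : ∫⁻ x in Ico (j + 1 / 2 : ℝ) (j + 1), ‖f x - m‖ₑ = ‖m‖ₑ / 2 := by
    rw [setLIntegral_congr_fun measurableSet_Ico (g := fun _ => ‖m‖ₑ), setLIntegral_const]
    · rw [Real.volume_Ico, show (j + 1 - (j + 1 / 2) : ℝ) = 2⁻¹ by ring]
      simp [div_eq_mul_inv, ENNReal.ofReal_inv_of_pos]
    · intro x hx
      have e := hfl x (by linarith [hx.1]) hx.2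
      have : ¬ Int.fract x < 1 / 2 := by
        rw [Int.fract, e]; push_cast; linarith [hx.1]
      simp only [f, if_neg this, zero_sub, enorm_neg]
  calc (j : ℝ≥0∞) / 2 ≤ ‖(j : ℝ) - m‖ₑ / 2 + ‖m‖ₑ / 2 := by
        rw [← ENNReal.add_div]
        gcongr
        simpa using enorm_add_le ((j : ℝ) - m) m
    _ = ∫⁻ x in Ico (j : ℝ) (j + 1 / 2) ∪ Ico (j + 1 / 2 : ℝ) (j + 1), ‖f x - m‖ₑ := by
        rw [lintegral_union measurableSet_Ico Ico_disjoint_Ico_same, h1, h2]
    _ ≤ _ := by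
        rw [Ico_union_Ico_eq_Ico (by linarith) (by linarith)]
        exact lintegral_mono_set Ico_subset_Icc_self

theorem result : ∃ w : ℝ → ℝ → ℝ → ℝ≥0∞,
    (∀ a b, a < b → Measurable (w a b) ∧ (∀ x, 0 < w a b x ∧ w a b x < ∞) ∧
      1 ≤ wnorm (w a b) a b 1 ∧ wnorm (w a b) a b 1 ≤ 2) ∧
    (∀ g : ℝ → ℝ, LocallyIntegrable g → bmoX w g ≤ 5 * bmo g) ∧
    ∃ f : ℝ → ℝ, Measurable f ∧ LocallyIntegrable f ∧ bmoStar w f ≤ 1 ∧ bmo f = ∞ := by
  choose c hc using portion
  let E : ℝ → ℝ → Set ℝ := fun a b => Icc a b ∩ {x | f x = c a b}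
  have hE : ∀ a b, MeasurableSet (E a b) := fun a b =>
    measurableSet_Icc.inter (f_meas (measurableSet_singleton _))
  let A : ℝ → ℝ → ℝ≥0∞ := fun a b => ∫⁻ x in Icc a b, ‖f x - c a b‖ₑ
  have hA : ∀ a b, A a b ≠ ∞ := fun a b =>
    ((f_loc.integrableOn_isCompact isCompact_Icc).sub
      (continuous_const.integrableOn_Icc (f := fun _ => c a b))).2.ne
  let η : ℝ → ℝ → ℝ≥0∞ := fun a b => (volume (Icc a b) + A a b)⁻¹
  have hQ : ∀ a b : ℝ, a < b → volume (Icc a b) ≠ 0 := fun a b h => by simpa using h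
  have hQ' : ∀ a b : ℝ, volume (Icc a b) ≠ ∞ := fun a b => by simp
  have hE0 : ∀ a b : ℝ, a < b → volume (E a b) ≠ 0 := fun a b h h0 => by
    have := hc a b
    rw [show volume (Icc a b ∩ {x | f x = c a b}) = 0 from h0] at this
    exact hQ a b h (by simpa using this)
  have hE1 : ∀ a b : ℝ, volume (E a b) ≠ ∞ := fun a b =>
    ne_top_of_le_ne_top (hQ' a b) (measure_mono inter_subset_left)
  have hη : ∀ a b, η a b ≤ (volume (Icc a b))⁻¹ := fun a b => ENNReal.inv_le_inv.2 le_self_add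
  have hw : ∀ a b, a < b → ∀ x, (E a b).indicator (fun _ => (volume (E a b))⁻¹) x + η a b ≤
      5 * (volume (Icc a b))⁻¹ := by
    intro a b h x
    have : (volume (E a b))⁻¹ ≤ 4 * (volume (Icc a b))⁻¹ := by
      rw [← div_eq_mul_inv, ENNReal.le_div_iff_mul_le (Or.inl (hQ a b h)) (Or.inl (hQ' a b)),
        mul_comm, ← div_eq_mul_inv, ENNReal.div_le_iff (hE0 a b h) (hE1 a b)]
      exact hc a b
    calc _ ≤ 4 * (volume (Icc a b))⁻¹ + (volume (Icc a b))⁻¹ :=
          add_le_add ((indicator_le_self' (by simp) x).trans this) (hη a b)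
      _ = _ := by ring
  refine ⟨fun a b x => (E a b).indicator (fun _ => (volume (E a b))⁻¹) x + η a b,
    fun a b h => ⟨(measurable_const.indicator (hE a b)).add measurable_const, fun x => ⟨?_, ?_⟩, ?_⟩,
    fun g _ => ?_, f, f_meas, f_loc, ?_, ?_⟩
  · exact lt_of_lt_of_le (ENNReal.inv_pos.2 (ENNReal.add_ne_top.2 ⟨hQ' a b, hA a b⟩)) le_add_self
  · exact (hw a b h x).trans_lt (ENNReal.mul_lt_top (by simp) (ENNReal.inv_lt_top.2 (hQ a b h).bot_lt))
  · have : wnorm (fun x => (E a b).indicator (fun _ => (volume (E a b))⁻¹) x + η a b) a b 1 =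
        1 + η a b * volume (Icc a b) := by
      simp only [wnorm, Pi.one_apply, enorm_one, one_mul]
      rw [lintegral_add_right _ measurable_const, setLIntegral_const, lintegral_indicator_const (hE a b),
        Measure.restrict_apply (hE a b), inter_eq_left.2 inter_subset_left,
        ENNReal.inv_mul_cancel (hE0 a b h) (hE1 a b)]
    rw [this, ← one_add_one_eq_two]
    refine ⟨le_self_add, add_le_add_right ?_ _⟩
    exact (mul_le_mul_left (hη a b) _).trans (ENNReal.inv_mul_cancel (hQ a b h) (hQ' a b)).le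
  · refine iSup_le fun a => iSup_le fun b => iSup_le fun h => ?_
    refine (lintegral_mono fun x => mul_le_mul_right (hw a b h x) _).trans ?_
    rw [lintegral_mul_const' _ _ (ENNReal.mul_ne_top (by simp) (ENNReal.inv_ne_top.2 (hQ a b h))),
      mul_left_comm, ← div_eq_mul_inv, ← setLAverage_eq]
    refine mul_le_mul_right (le_iSup_of_le a (le_iSup_of_le b ?_)) _
    rw [iSup_pos h]
  · refine iSup_le fun a => iSup_le fun b => iSup_le fun h => iInf_le_of_le (c a b) ?_
    have : wnorm (fun x => (E a b).indicator (fun _ => (volume (E a b))⁻¹) x + η a b) a b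
        (fun x => f x - c a b) = A a b * η a b := by
      rw [← lintegral_mul_const' _ _ (ENNReal.inv_ne_top.2 (by simp [h]))]
      refine lintegral_congr fun x => ?_
      by_cases hx : x ∈ E a b
      · simp [show f x = c a b from hx.2]
      · simp [hx, η]
    rw [this, ← div_eq_mul_inv]
    exact ENNReal.div_le_of_le_mul (by simp)
  · refine ENNReal.eq_top_of_forall_nnreal_le fun r => ?_
    obtain ⟨j, hj⟩ := exists_nat_ge (2 * r)
    refine le_iSup_of_le (j : ℝ) (le_iSup_of_le ((j : ℝ) + 1)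
      (le_iSup_of_le (by simp) ((lower j _).trans' ?_)))
    rw [ENNReal.le_div_iff_mul_le (by simp) (by simp), mul_comm]
    exact_mod_cast hj

end Pool.Agent.Results.MP_ea8870_an.StarFails
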